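import Pool.Agent.E8helper24.MG.Play
import Pool.Agent.V11244.CohCore

/-!
# Strongly proper forcing and winning strategies of II in the Menger game

II has a winning strategy in the Menger game on the Cantor space, which is compact. Let `P` be ANY
forcing that is strongly proper for stationarily many models, and let `p` be a condition with no
atom below it. Then `p` forces that II has no winning strategy in the Menger game on the ground
model Cantor space (with the ground model topology as a base), even if I plays only covers by
ground model open sets. Cohen forcing is such a forcing.

Sentences of the forcing language are sets of conditions, a name for a family of ground model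
subsets of `X` is a map `Set X → Set P`; see `Pool.Agent.Helper669.Forcing` and
`Pool.Agent.V11244.CohGame`. The case of Cohen forcing is in the starting file
`Pool.Agent.V11244.CohCore`.

Proof: below `p` there is a name for a new real, which codes the generic filter on a countable
model. At every position, the points which some condition forces to be always covered by the next
answer form a countable set: otherwise their closure contains a perfect set, and the cover
consisting of the clopen sets which avoid the new member of this perfect set coded by the new
real cannot be answered. Strong genericity for a countable model which is closed under the choice
of moves then yields, for a point outside countably many countable sets, a play in which this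
point is never covered.
-/

set_option autoImplicit false

universe u

namespace Pool.Agent.Results.MP_18f314_lc.NeverPreservedH24

open Pool.Agent.Helper669.Forcing
open Pool.Agent.V11244.CohGame
open Pool.Agent.V11244.CohCore (Coh)

/-- There is no atom below `p`: every condition below `p` has two incompatible extensions. -/
def AtomlessBelow {P : Type u} [Preorder P] (p : P) : Prop :=
  ∀ q ≤ p, ∃ r ≤ q, ∃ s ≤ q, ∀ t, t ≤ r → ¬ t ≤ s

theorem list_atomless (q t : List Bool) (h1 : q ++ [false] <+: t) (h2 : q ++ [true] <+: t) :
    False := by
  have hlen : (q ++ [false]).length = (q ++ [true]).length := by simp
  have h3 : q ++ [false] = q ++ [true] :=
    (List.prefix_of_prefix_length_le h1 h2 hlen.le).eq_of_length hlen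
  have h4 := List.append_cancel_left h3
  simp at h4

theorem coh_atomless (p : Coh) : AtomlessBelow p := by
  intro q _
  exact ⟨List.append (α := Bool) q [false], List.prefix_append (α := Bool) _ _,
    List.append (α := Bool) q [true], List.prefix_append (α := Bool) _ _,
    fun t h1 h2 => list_atomless q t h1 h2⟩

/-- II has a winning strategy in the Menger game on the Cantor space, but every condition, with no
atom below it, of every forcing that is strongly proper for stationarily many models forces that II
has none in the Menger game on the ground model Cantor space, even if I plays only covers by
ground model open sets. Cohen forcing `Coh` (finite sequences of bits) is strongly proper for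
stationarily many models, and all its conditions are as required. -/
theorem result :
    IIWinsFin (OpenCovers (ℕ → Bool)) (OpenCovers (ℕ → Bool)) ∧
    (∀ (P : Type u) [Preorder P], StronglyProper P → ∀ p : P, AtomlessBelow p →
      p ∈ fnot (fIIWinsFin (P := P) (X := ℕ → Bool) fOpenCover fOpenCover)) ∧
    StronglyProper Coh ∧ ∀ p : Coh, AtomlessBelow p :=
  ⟨wins_of_compact, fun _ _ hP p hp => Pool.Agent.E8helper24.MG.no_menger hP p hp,
    stronglyProper_of_countable, coh_atomless⟩

end Pool.Agent.Results.MP_18f314_lc.NeverPreservedH24
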